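import Pool.Agent.helper4.NF.SpecB

/-!
# Project nf: TRB
-/

set_option autoImplicit false

open Complex MeasureTheory

namespace Pool.Agent.NF

open Pool.Agent.helper84.DM Pool.Agent.helper78.ED Pool.Agent.DH Pool.Agent.ZD

theorem TRB_diff (hEXA : EXA_stmt) (hEXB : EXB_stmt) (W : Finset ℝ) (X : ℝ) (P : ℝ → ℂ) (M : ℕ)
    (τ : ℝ) (hτ : τ ∈ W) (k : ℕ) (e : ℝ) (he0 : ‖Bs X M 0‖ ≤ e)
    (he : ∀ t ∈ W, t ≠ τ → ‖BX X (τ - t) - ex (-((τ - t) * Real.log X)) * Bs X M (τ - t)‖ ≤ e) :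
    ‖FK W X P τ k‖ ≤ ‖FG Phi W (fun t => P t * ex (t * Real.log X)) X M τ k‖ + e * ∑ t ∈ W, ‖P t‖ := by
  obtain ⟨x1, x2, x3, x4, -, -, -, -, -⟩ := hEXA
  obtain ⟨-, -, -, xB, -, -⟩ := hEXB
  set G := FG Phi W (fun t => P t * ex (t * Real.log X)) X M τ k with hG
  have hGn : ‖ex (-(τ * Real.log X)) * G‖ = ‖G‖ := by rw [norm_mul, x1, one_mul]
  have hdiff : FK W X P τ k - ex (-(τ * Real.log X)) * G =
      ∑ t ∈ W, P t * ex (-(t * Real.log k)) * (if t = τ then -Bs X M 0 else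
        (BX X (τ - t) - ex (-((τ - t) * Real.log X)) * Bs X M (τ - t))) := by
    rw [hG]
    unfold FK FG
    rw [Finset.mul_sum, ← Finset.sum_sub_distrib]
    refine Finset.sum_congr rfl fun t _ => ?_
    rw [xB]
    by_cases h : t = τ
    · subst h
      rw [if_pos rfl, if_pos rfl, sub_self]
      have h1 : ex (-(t * Real.log X)) * ex (t * Real.log X) = 1 := by
        rw [← x2, neg_add_cancel, x4]
      linear_combination (-(P t * ex (-(t * Real.log k)) * Bs X M 0)) * h1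
    · rw [if_neg h, if_neg h]
      have h1 : ex (-((τ - t) * Real.log X)) = ex (-(τ * Real.log X)) * ex (t * Real.log X) := by
        rw [← x2]
        congr 1
        ring
      rw [h1]
      ring
  have hb : ‖FK W X P τ k - ex (-(τ * Real.log X)) * G‖ ≤ e * ∑ t ∈ W, ‖P t‖ := by
    rw [hdiff, Finset.mul_sum]
    refine (norm_sum_le _ _).trans (Finset.sum_le_sum fun t ht => ?_)
    rw [norm_mul, norm_mul, x1, mul_one, mul_comm]
    refine mul_le_mul_of_nonneg_right ?_ (norm_nonneg _)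
    by_cases h : t = τ
    · rw [if_pos h, norm_neg]
      exact he0
    · rw [if_neg h]
      exact he t ht h
  have h2 : FK W X P τ k = ex (-(τ * Real.log X)) * G +
      (FK W X P τ k - ex (-(τ * Real.log X)) * G) := by ring
  rw [h2]
  refine (norm_add_le _ _).trans ?_
  rw [hGn]
  linarith

theorem TRB (hPRX : PRX_stmt) (hBSX : BSX_stmt) (hEXA : EXA_stmt) (hEXB : EXB_stmt)
    (hCRD : CRD_stmt) (hBPH : BPH_stmt) : TRB_stmt := by
  intro δ hδ hδ1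
  obtain ⟨C1, T1, hC1, h1⟩ := hPRX 4 δ (by norm_num) hδ hδ1
  obtain ⟨C2, hC2, h2⟩ := hBSX 4 (by norm_num)
  set C := max C1 C2 with hC
  have hC0 : 0 < C := lt_of_lt_of_le hC1 (le_max_left _ _)
  refine ⟨max T1 (max 1 (256 * C ^ 2)), ?_⟩
  intro T hT W hW X X₀ P M hX1 hX2 hX0 hX02 hM τ hτ
  have hT1 : T1 ≤ T := (le_max_left _ _).trans hT
  have hT2 : 1 ≤ T := ((le_max_left _ _).trans (le_max_right _ _)).trans hT
  have hT3 : 256 * C ^ 2 ≤ T := ((le_max_right _ _).trans (le_max_right _ _)).trans hT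
  have hT0 : 0 < T := by linarith
  have hX : 1 ≤ X := (Real.one_le_rpow hT2 (by norm_num)).trans hX1
  obtain ⟨hWa, hWb⟩ := hW
  have hTδ : 1 ≤ T ^ δ := Real.one_le_rpow hT2 hδ.le
  have hcard : (W.card : ℝ) ≤ 2 * T := by
    have := hCRD T W hT2 hWa (fun t ht t' ht' hne => hTδ.trans (hWb t ht t' ht' hne))
    linarith
  set e : ℝ := C * T ^ (-(4 : ℝ)) with he
  have hq : T ^ (-(4 : ℝ)) = (T ^ 4)⁻¹ := by
    rw [Real.rpow_neg hT0.le]
    congr 1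
    exact_mod_cast Real.rpow_natCast T 4
  have hq0 : 0 < T ^ (-(4 : ℝ)) := Real.rpow_pos_of_pos hT0 _
  have he0 : 0 ≤ e := by positivity
  set S := ∑ t ∈ W, ‖P t‖ with hS
  have hS0 : 0 ≤ S := Finset.sum_nonneg fun t _ => norm_nonneg _
  have hSS : S ^ 2 ≤ 2 * T * ∑ t ∈ W, ‖P t‖ ^ 2 := by
    have h3 : S ^ 2 ≤ W.card * ∑ t ∈ W, ‖P t‖ ^ 2 := sq_sum_le_card_mul_sum_sq
    exact h3.trans (mul_le_mul_of_nonneg_right hcard (Finset.sum_nonneg fun t _ => sq_nonneg _))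
  have hk : ∀ k : ℕ, ‖FK W X P τ k‖ ^ 2 ≤
      2 * ‖FG Phi W (fun t => P t * ex (t * Real.log X)) X M τ k‖ ^ 2 + 2 * (e * S) ^ 2 := by
    intro k
    have h3 := TRB_diff hEXA hEXB W X P M τ hτ k e
      ((h2 T X hT2 hX1 M).trans (mul_le_mul_of_nonneg_right (le_max_right _ _) hq0.le))
      (fun t ht hne => (h1 T hT1 X hX hX2 (τ - t) (hWb τ hτ t ht (Ne.symm hne)) (by
        rw [abs_le]
        have a1 := hWa τ hτ
        have a2 := hWa t ht
        constructor <;> linarith) M hM).trans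
        (mul_le_mul_of_nonneg_right (le_max_left _ _) hq0.le))
    have h4 := norm_nonneg (FK W X P τ k)
    have h5 := norm_nonneg (FG Phi W (fun t => P t * ex (t * Real.log X)) X M τ k)
    have h6 := mul_nonneg he0 hS0
    have h7 : ‖FK W X P τ k‖ ^ 2 ≤
        (‖FG Phi W (fun t => P t * ex (t * Real.log X)) X M τ k‖ + e * S) ^ 2 :=
      pow_le_pow_left₀ h4 h3 2
    nlinarith [sq_nonneg (‖FG Phi W (fun t => P t * ex (t * Real.log X)) X M τ k‖ - e * S)]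
  obtain ⟨hPhi, -, -, -⟩ := hBPH
  have hsum : qk W X X₀ P τ ≤ ∑ k ∈ Finset.Icc 1 ⌊64 * X₀⌋₊, (2 * (Phi ((k : ℝ) / X₀) *
      ‖FG Phi W (fun t => P t * ex (t * Real.log X)) X M τ k‖ ^ 2) + 2 * (e * S) ^ 2) := by
    unfold qk
    refine Finset.sum_le_sum fun k _ => ?_
    obtain ⟨p0, p1⟩ := hPhi ((k : ℝ) / X₀)
    have h3 := mul_le_mul_of_nonneg_left (hk k) p0
    have h4 : Phi ((k : ℝ) / X₀) * (2 * (e * S) ^ 2) ≤ 1 * (2 * (e * S) ^ 2) :=
      mul_le_mul_of_nonneg_right p1 (by positivity)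
    linarith
  refine hsum.trans ?_
  rw [Finset.sum_add_distrib, ← Finset.mul_sum, Finset.sum_const, Nat.card_Icc, nsmul_eq_mul,
    Nat.add_sub_cancel]
  have hfl : ((⌊64 * X₀⌋₊ : ℕ) : ℝ) ≤ 64 * T ^ 2 := by
    have h3 : ((⌊64 * X₀⌋₊ : ℕ) : ℝ) ≤ 64 * X₀ := Nat.floor_le (by positivity)
    linarith
  have hfin : ((⌊64 * X₀⌋₊ : ℕ) : ℝ) * (2 * (e * S) ^ 2) ≤ ∑ t ∈ W, ‖P t‖ ^ 2 := by
    have hP : 0 ≤ ∑ t ∈ W, ‖P t‖ ^ 2 := Finset.sum_nonneg fun t _ => sq_nonneg _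
    calc ((⌊64 * X₀⌋₊ : ℕ) : ℝ) * (2 * (e * S) ^ 2)
        ≤ (64 * T ^ 2) * (2 * (e * S) ^ 2) := mul_le_mul_of_nonneg_right hfl (by positivity)
      _ = 128 * T ^ 2 * e ^ 2 * S ^ 2 := by ring
      _ ≤ 128 * T ^ 2 * e ^ 2 * (2 * T * ∑ t ∈ W, ‖P t‖ ^ 2) :=
          mul_le_mul_of_nonneg_left hSS (by positivity)
      _ = (256 * C ^ 2 / T ^ 5) * ∑ t ∈ W, ‖P t‖ ^ 2 := by
          rw [he, hq]
          field_simp
          ring
      _ ≤ 1 * ∑ t ∈ W, ‖P t‖ ^ 2 := by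
          refine mul_le_mul_of_nonneg_right ?_ hP
          rw [div_le_one (by positivity)]
          refine hT3.trans ?_
          calc T = T ^ 1 := (pow_one T).symm
            _ ≤ T ^ 5 := pow_le_pow_right₀ hT2 (by norm_num)
      _ = ∑ t ∈ W, ‖P t‖ ^ 2 := one_mul _
  linarith

end Pool.Agent.NF
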